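import Pool.Agent.Helper68.ES.St5

/-!
# Project ES (MP_cb927e_an), module PX2: many crossing pairs
-/

set_option autoImplicit false

open MeasureTheory Set Filter Topology
open scoped ENNReal RealInnerProductSpace

namespace Pool.Agent.Helper39.ES

open Pool.Agent.Helper68.ES Pool.Agent.Helper68.EP Pool.Agent.Helper20.RG
open Pool.Agent.Helper20.RL (RQ Rich BM Fml Hit)
open Pool.Agent.Helper68.LM (Pl BB Bd Av HL ft fm DQ)

/-- Module PX2. -/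
theorem hPX2 (hMKV : StMKV) (hEGS : StEGS) (hPXH : StPXH) (hPX1 : StPX1) :
    Pool.Agent.Helper68.ES.StPX2 := by
  classical
  intro P Δ ct w u q₁ q₂ i₁ i₂ m₁ m₂ E₁ E₂ hSy hw hwu hE₁ hE₂ hth hq₁ hq₂ hu hm₁ hm₂
  have hθ₁ : 0 < th i₁ := by unfold th; positivity
  have hθ₂ : 0 < th i₂ := by unfold th; positivity
  have hDu : 0 < DD P u := by unfold DD; positivity
  have hDw : 0 < DD P w := by unfold DD; positivity
  have hn : 0 < m₁ * m₂ / 16 := by positivity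
  obtain ⟨hEg, hsum⟩ := hEGS E₁ (DD P w) q₁ hE₁ hDw hq₁
  -- one pair
  have hB : ∀ (k : ℤ) (h : ℕ × ℕ),
      volume {x | h ∈ Fp P Δ ct w u q₁ q₂ i₁ i₂ k E₁ E₂ x} ≤
        ENNReal.ofReal (10 ^ 6 * DD P u / th i₂) *
          (ENNReal.ofReal (1 / th i₁) * volume (Eg E₁ (DD P w) q₁ k)) := by
    intro k h
    by_cases hcon : h.1 < 2 ^ w ∧ h.2 < 2 ^ u ∧
        (2 : ℝ) ^ ((u : ℤ) - 2 ^ q₂) < |Δ.sl w h.1 - Δ.sl u h.2|
    · obtain ⟨h1, h2, h3⟩ := hcon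
      have h4 := hPX1 P Δ ct w u h.1 h.2 q₁ q₂ k (th i₁) (th i₂) E₁ E₂ hSy hw hwu h1 h2 hE₁ hE₂
        hθ₁ hth hq₂ hu h3
      have h5 := (hPXH Δ ct w h.1 k (th i₁) (Eg E₁ (DD P w) q₁ k) (hEg k).1 hθ₁).2.2.1
      calc volume {x | h ∈ Fp P Δ ct w u q₁ q₂ i₁ i₂ k E₁ E₂ x}
          ≤ volume {x | h.1 ∈ Hs Δ ct w k (th i₁) (Eg E₁ (DD P w) q₁ k) x ∧
              h.2 ∈ Hs Δ ct u k (th i₂) (Eg E₂ (DD P u) q₂ k) x} :=
            measure_mono fun x hx => ⟨hx.1, hx.2.1⟩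
        _ ≤ _ := h4
        _ ≤ _ := by gcongr
    · have h0 : {x | h ∈ Fp P Δ ct w u q₁ q₂ i₁ i₂ k E₁ E₂ x} = ∅ := by
        rw [Set.eq_empty_iff_forall_notMem]
        intro x hx
        exact hcon ⟨hx.1.1, hx.2.1.1, hx.2.2⟩
      rw [h0, measure_empty]
      exact zero_le'
  -- one scale
  have hk : ∀ k : ℤ,
      volume {x | m₁ * m₂ / 16 ≤ ((Fp P Δ ct w u q₁ q₂ i₁ i₂ k E₁ E₂ x).ncard : ℝ)} ≤
        ENNReal.ofReal (1 / (m₁ * m₂ / 16)) * (ENNReal.ofReal ((2 : ℝ) ^ w * 2 ^ u) *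
          (ENNReal.ofReal (10 ^ 6 * DD P u / th i₂) *
            (ENNReal.ofReal (1 / th i₁) * volume (Eg E₁ (DD P w) q₁ k)))) := by
    intro k
    have hM := hMKV (ℕ × ℕ) (fun h => {x | h ∈ Fp P Δ ct w u q₁ q₂ i₁ i₂ k E₁ E₂ x})
      (m₁ * m₂ / 16) hn
    have hfin : ∀ x, (Fp P Δ ct w u q₁ q₂ i₁ i₂ k E₁ E₂ x).Finite := by
      intro x
      refine ((Finset.range (2 ^ w) ×ˢ Finset.range (2 ^ u)).finite_toSet).subset fun h hh => ?_
      rw [Finset.mem_coe, Finset.mem_product, Finset.mem_range, Finset.mem_range]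
      exact ⟨hh.1.1, hh.2.1.1⟩
    have hsub : {x | m₁ * m₂ / 16 ≤ ((Fp P Δ ct w u q₁ q₂ i₁ i₂ k E₁ E₂ x).ncard : ℝ)} ⊆
        {x : Pl | ∃ V : Finset (ℕ × ℕ), (∀ i ∈ V, x ∈ {x | i ∈ Fp P Δ ct w u q₁ q₂ i₁ i₂ k E₁ E₂ x}) ∧
          m₁ * m₂ / 16 ≤ (V.card : ℝ)} := by
      intro x hx
      refine ⟨(hfin x).toFinset, fun i hi => (hfin x).mem_toFinset.1 hi, ?_⟩
      rw [← Set.ncard_eq_toFinset_card _ (hfin x)]
      exact hx
    have htsum : ∑' h : ℕ × ℕ, volume {x | h ∈ Fp P Δ ct w u q₁ q₂ i₁ i₂ k E₁ E₂ x} ≤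
        ENNReal.ofReal ((2 : ℝ) ^ w * 2 ^ u) * (ENNReal.ofReal (10 ^ 6 * DD P u / th i₂) *
          (ENNReal.ofReal (1 / th i₁) * volume (Eg E₁ (DD P w) q₁ k))) := by
      rw [tsum_eq_sum (s := Finset.range (2 ^ w) ×ˢ Finset.range (2 ^ u))]
      · refine (Finset.sum_le_card_nsmul _ _ _ fun h _ => hB k h).trans (le_of_eq ?_)
        rw [Finset.card_product, Finset.card_range, Finset.card_range, nsmul_eq_mul]
        congr 1
        rw [← ENNReal.ofReal_natCast]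
        congr 1
        push_cast
        ring
      · intro h hh
        have h0 : {x | h ∈ Fp P Δ ct w u q₁ q₂ i₁ i₂ k E₁ E₂ x} = ∅ := by
          rw [Set.eq_empty_iff_forall_notMem]
          intro x hx
          apply hh
          rw [Finset.mem_product, Finset.mem_range, Finset.mem_range]
          exact ⟨hx.1.1, hx.2.1.1⟩
        rw [h0, measure_empty]
    exact (measure_mono hsub).trans (hM.trans (mul_le_mul_right htsum _))
  -- sum over the scales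
  calc ∑' k : ℤ, volume {x | m₁ * m₂ / 16 ≤ ((Fp P Δ ct w u q₁ q₂ i₁ i₂ k E₁ E₂ x).ncard : ℝ)}
      ≤ ∑' k : ℤ, (ENNReal.ofReal (1 / (m₁ * m₂ / 16)) * (ENNReal.ofReal ((2 : ℝ) ^ w * 2 ^ u) *
          (ENNReal.ofReal (10 ^ 6 * DD P u / th i₂) *
            (ENNReal.ofReal (1 / th i₁) * volume (Eg E₁ (DD P w) q₁ k))))) :=
        ENNReal.tsum_le_tsum hk
    _ = ENNReal.ofReal (1 / (m₁ * m₂ / 16)) * (ENNReal.ofReal ((2 : ℝ) ^ w * 2 ^ u) *
          (ENNReal.ofReal (10 ^ 6 * DD P u / th i₂) *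
            (ENNReal.ofReal (1 / th i₁) * ∑' k : ℤ, volume (Eg E₁ (DD P w) q₁ k)))) := by
        simp only [ENNReal.tsum_mul_left]
    _ ≤ ENNReal.ofReal (1 / (m₁ * m₂ / 16)) * (ENNReal.ofReal ((2 : ℝ) ^ w * 2 ^ u) *
          (ENNReal.ofReal (10 ^ 6 * DD P u / th i₂) *
            (ENNReal.ofReal (1 / th i₁) * (ENNReal.ofReal (2 ^ q₁) * volume E₁)))) := by
        gcongr
    _ = ENNReal.ofReal (16 * 10 ^ 6 * 2 ^ w * 2 ^ u * 2 ^ q₁ * DD P u /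
          (m₁ * th i₁ * (m₂ * th i₂))) * volume E₁ := by
        simp only [← mul_assoc]
        congr 1
        rw [← ENNReal.ofReal_mul (by positivity), ← ENNReal.ofReal_mul (by positivity),
          ← ENNReal.ofReal_mul (by positivity), ← ENNReal.ofReal_mul (by positivity)]
        congr 1
        field_simp

end Pool.Agent.Helper39.ES
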